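import Pool.Agent.TH804.DP6

/-!
# Montgomery's `ℓ^q` conjecture is a density hypothesis for the solutions of `∑_{n ∈ S} n^{-s} = a`

For each `q` the `ℓ^q` inequality for all Dirichlet polynomials with coefficients bounded by 1 is
equivalent to a bound for the number of solutions `s`, `Re s ≥ σ`, `0 < Im s ≤ T`, of the equations
`∑_{n ∈ S} n^{-s} = a` for all sets `S ⊆ [N, 2N]`, and the whole conjecture to the density
hypothesis `T^{2(1-σ)}` for these solutions.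
-/

set_option autoImplicit false

open Pool.Agent.TH804.DP

namespace Pool.Agent.Results.MP_2a1f0e_nt.DensityOfSolutions

/-- the inequality of Q1 for one exponent `q` and one exponent `A` -/
def MeanBound (q A : ℝ) : Prop := ∀ ε : ℝ, 0 < ε → ∃ K : ℝ,
  ∀ N T : ℕ, 1 ≤ N → N ≤ T → (T : ℝ) ≤ (N : ℝ) ^ A → ∀ b : ℕ → ℂ, (∀ n, ‖b n‖ ≤ 1) →
    ∑ t ∈ Finset.Icc 1 T, ‖∑ n ∈ Finset.Icc N (2 * N),
        b n * Complex.exp (Complex.I * (t : ℂ) * ((Real.log (n : ℝ) : ℝ) : ℂ))‖ ^ q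
      ≤ K * (N : ℝ) ^ ε * ((N : ℝ) ^ q + (N : ℝ) ^ (q / 2) * (T : ℝ))

/-- The equation `∑_{n ∈ S} n^{-s} = a` has at most `B` solutions `s` with `Re s ≥ σ` and
`0 < Im s ≤ T`, counted with multiplicity. -/
def SolutionsLe (S : Finset ℕ) (a : ℂ) (σ T B : ℝ) : Prop := ∀ Z : Finset ℂ,
  (∀ z ∈ Z, ∑ n ∈ S, (n : ℂ) ^ (-z) = a ∧ σ ≤ z.re ∧ 0 < z.im ∧ z.im ≤ T) →
    ∑ z ∈ Z, (analyticOrderNatAt (fun s : ℂ => ∑ n ∈ S, (n : ℂ) ^ (-s) - a) z : ℝ) ≤ B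

/-- the bound `N^ε (N^{q(1-σ)} + T N^{q(1/2-σ)})` for the solutions, uniformly in all sets
`S ⊆ [N, 2N]`, in `N ≤ T ≤ N^A` and in `1/2 ≤ σ ≤ 1` -/
def SolutionBound (a : ℂ) (q A : ℝ) : Prop := ∀ ε : ℝ, 0 < ε → ∃ K : ℝ, ∃ N₀ : ℕ,
  ∀ N T : ℕ, N₀ ≤ N → N ≤ T → (T : ℝ) ≤ (N : ℝ) ^ A → ∀ S : Finset ℕ, S ⊆ Finset.Icc N (2 * N) →
    ∀ σ : ℝ, 1 / 2 ≤ σ → σ ≤ 1 → SolutionsLe S a σ T
      (K * (N : ℝ) ^ ε * ((N : ℝ) ^ (q * (1 - σ)) + (N : ℝ) ^ (q * (1 / 2 - σ)) * (T : ℝ)))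

/-- the density hypothesis for the solutions: the bound `N^ε T^{2(1-σ)}` -/
def SolutionDensity (a : ℂ) : Prop := ∀ A : ℝ, 1 ≤ A → ∀ ε : ℝ, 0 < ε → ∃ K : ℝ, ∃ N₀ : ℕ,
  ∀ N T : ℕ, N₀ ≤ N → N ≤ T → (T : ℝ) ≤ (N : ℝ) ^ A → ∀ S : Finset ℕ, S ⊆ Finset.Icc N (2 * N) →
    ∀ σ : ℝ, 1 / 2 ≤ σ → σ ≤ 1 → SolutionsLe S a σ T (K * (N : ℝ) ^ ε * (T : ℝ) ^ (2 * (1 - σ)))

lemma meanBound_iff (q A : ℝ) : MeanBound q A ↔ Lq q A := by
  constructor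
  · intro h ε hε
    obtain ⟨K, hK⟩ := h ε hε
    refine ⟨K, fun N T hN hNT hTA b hb => ?_⟩
    refine le_trans (le_of_eq ?_) (hK N T hN hNT hTA (fun n => (starRingEnd ℂ) (b n)) (fun n => by
      rw [Complex.norm_conj]; exact hb n))
    refine Finset.sum_congr rfl fun t _ => ?_
    have := conj_sum hN (fun n => (starRingEnd ℂ) (b n)) t
    simp only [Complex.conj_conj, Complex.ofReal_natCast] at this
    rw [this]
  · intro h ε hε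
    obtain ⟨K, hK⟩ := h ε hε
    refine ⟨K, fun N T hN hNT hTA b hb => ?_⟩
    refine le_trans (le_of_eq ?_) (hK N T hN hNT hTA (fun n => (starRingEnd ℂ) (b n)) (fun n => by
      rw [Complex.norm_conj]; exact hb n))
    refine Finset.sum_congr rfl fun t _ => ?_
    have := conj_sum hN b t
    simp only [Complex.ofReal_natCast] at this
    rw [this]

lemma F_eq {N : ℕ} {S : Finset ℕ} (hS : S ⊆ Finset.Icc N (2 * N)) (a : ℂ) :
    F N a (ind S) = fun s : ℂ => ∑ n ∈ S, (n : ℂ) ^ (-s) - a := by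
  funext s
  unfold F
  rw [P_ind hS]

lemma solutionsLe_iff {N : ℕ} {S : Finset ℕ} (hS : S ⊆ Finset.Icc N (2 * N)) (a : ℂ) (σ T B : ℝ) :
    SolutionsLe S a σ T B ↔ ∀ Z : Finset ℂ, (∀ z ∈ Z, F N a (ind S) z = 0 ∧ σ ≤ z.re ∧ 0 < z.im ∧ z.im ≤ T) →
      ∑ z ∈ Z, (analyticOrderNatAt (F N a (ind S)) z : ℝ) ≤ B := by
  unfold SolutionsLe
  rw [F_eq hS a]
  simp only [sub_eq_zero]

lemma solutionBound_iff (a : ℂ) (q A : ℝ) : SolutionBound a q A ↔ Zq a q A := by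
  constructor
  · intro h ε hε
    obtain ⟨K, N₀, hK⟩ := h ε hε
    exact ⟨K, N₀, fun N T hN hNT hTA S hS σ h1 h2 => (solutionsLe_iff hS a σ T _).1 (hK N T hN hNT hTA S hS σ h1 h2)⟩
  · intro h ε hε
    obtain ⟨K, N₀, hK⟩ := h ε hε
    exact ⟨K, N₀, fun N T hN hNT hTA S hS σ h1 h2 => (solutionsLe_iff hS a σ T _).2 (hK N T hN hNT hTA S hS σ h1 h2)⟩

lemma solutionDensity_iff (a : ℂ) : SolutionDensity a ↔ DHp a := by
  constructor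
  · intro h A hA ε hε
    obtain ⟨K, N₀, hK⟩ := h A hA ε hε
    exact ⟨K, N₀, fun N T hN hNT hTA S hS σ h1 h2 => (solutionsLe_iff hS a σ T _).1 (hK N T hN hNT hTA S hS σ h1 h2)⟩
  · intro h A hA ε hε
    obtain ⟨K, N₀, hK⟩ := h A hA ε hε
    exact ⟨K, N₀, fun N T hN hNT hTA S hS σ h1 h2 => (solutionsLe_iff hS a σ T _).2 (hK N T hN hNT hTA S hS σ h1 h2)⟩

/-- Let `a ≠ 0`. (1) For all real `q > 0` and `A` the inequality of Q1 for `q` and `A` holds iff the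
number of solutions of `∑_{n ∈ S} n^{-s} = a` satisfies `SolutionBound`. (2) Q1 holds iff the
density hypothesis holds for the solutions. (3) `SolutionBound` holds for `q = 2k`, and (4) the
density hypothesis holds for the solutions at the heights `T = N^k`, `k = 1, 2, …`. -/
theorem result (a : ℂ) (ha : a ≠ 0) :
    (∀ q A : ℝ, 0 < q → (MeanBound q A ↔ SolutionBound a q A)) ∧
    ((∀ q : ℝ, 2 ≤ q → ∀ A : ℝ, 1 ≤ A → MeanBound q A) ↔ SolutionDensity a) ∧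
    (∀ k : ℕ, 1 ≤ k → ∀ A : ℝ, SolutionBound a (2 * (k : ℝ)) A) ∧
    (∀ k : ℕ, 1 ≤ k → ∀ ε : ℝ, 0 < ε → ∃ K : ℝ, ∃ N₀ : ℕ, ∀ N : ℕ, N₀ ≤ N →
      ∀ S : Finset ℕ, S ⊆ Finset.Icc N (2 * N) → ∀ σ : ℝ, 1 / 2 ≤ σ → σ ≤ 1 →
        SolutionsLe S a σ ((N : ℝ) ^ k) (K * (N : ℝ) ^ ε * ((N : ℝ) ^ k) ^ (2 * (1 - σ)))) := by
  have h1 : ∀ q A : ℝ, 0 < q → (MeanBound q A ↔ SolutionBound a q A) := by
    intro q A hq
    rw [meanBound_iff, solutionBound_iff]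
    exact ⟨fun h => Zq_of_Lq ha hq h, fun h => Lq_of_Zq ha hq h⟩
  have h3 : ∀ k : ℕ, 1 ≤ k → ∀ A : ℝ, SolutionBound a (2 * (k : ℝ)) A := by
    intro k hk A
    rw [solutionBound_iff]
    have hk0 : (0 : ℝ) < k := by exact_mod_cast hk
    exact Zq_of_Lq ha (by positivity) (Lq_even hk A)
  refine ⟨h1, ?_, h3, ?_⟩
  · rw [solutionDensity_iff]
    constructor
    · intro h
      exact DHp_of_Zq fun q hq A hA => (solutionBound_iff a q A).1 ((h1 q A (by linarith)).1 (h q hq A hA))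
    · intro h q hq A hA
      exact (h1 q A (by linarith)).2 ((solutionBound_iff a q A).2 (Zq_of_DHp h hA))
  · intro k hk ε hε
    obtain ⟨K, N₀, hK⟩ := h3 k hk k ε hε
    refine ⟨2 * K, max N₀ 1, fun N hN S hS σ h1 h2 => ?_⟩
    have hN₀ : N₀ ≤ N := (le_max_left _ _).trans hN
    have hN1 : 1 ≤ N := (le_max_right _ _).trans hN
    have hN0 : (0 : ℝ) < N := by exact_mod_cast hN1
    have h4 := hK N (N ^ k) hN₀ (Nat.le_self_pow (by omega) N) (by push_cast; rw [Real.rpow_natCast]) S hS σ h1 h2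
    have e1 : (N : ℝ) ^ (2 * (k : ℝ) * (1 - σ)) = ((N : ℝ) ^ k) ^ (2 * (1 - σ)) := by
      rw [← Real.rpow_natCast, ← Real.rpow_mul hN0.le]
      congr 1
      ring
    have e2 : (N : ℝ) ^ (2 * (k : ℝ) * (1 / 2 - σ)) * ((N : ℝ) ^ k) = ((N : ℝ) ^ k) ^ (2 * (1 - σ)) := by
      rw [← Real.rpow_natCast, ← Real.rpow_add hN0, ← Real.rpow_mul hN0.le]
      congr 1
      ring
    have e3 : K * (N : ℝ) ^ ε * ((N : ℝ) ^ (2 * (k : ℝ) * (1 - σ)) + (N : ℝ) ^ (2 * (k : ℝ) * (1 / 2 - σ)) * ((N ^ k : ℕ) : ℝ)) =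
        2 * K * (N : ℝ) ^ ε * ((N : ℝ) ^ k) ^ (2 * (1 - σ)) := by
      push_cast
      rw [e2, e1]
      ring
    rw [e3] at h4
    push_cast at h4
    exact h4

end Pool.Agent.Results.MP_2a1f0e_nt.DensityOfSolutions
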