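import Pool.Agent.TH804.GY6

/-!
# Montgomery's `ℓ^q` conjecture: `ℓ^q` norms of the coefficients off few integers

For each `q ≥ 2` and `A` the inequality of Q1 (for coefficients bounded by 1) is equivalent to the inequality
`∑_{t ≤ T} |D(t)|^q ≤ K N^ε (N^q + N^{q/2} T) ∑ p_n |b_n|^q` for ALL complex coefficients, with probability weights
`p_n` on `[N, 2N]` which depend on `N`, `T` only (1), to the inequality with
`R (N^q + N^{q/2} T) (1/N) ∑ |b_n|^q` on the right for all `R ≥ 1` and all complex coefficients which vanish on a set `B`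
of at most `N / R` integers which depends on `N`, `T`, `R` only (2), and to the inequality for coefficients in Hilbert
spaces (3).  The exponent `q` of `|b_n|^q` cannot be replaced by a much smaller one: for `2 < q < 4`, `T = N^{q/2}` and
`2 ≤ r < q² / (q² - 3q + 4)` (for instance `r = 2`) the inequality with `(∑ p_n |b_n|^r)^{q/r}` fails by a power of `N`
for every choice of weights (4), and the inequality with `((1/N) ∑ |b_n|^r)^{q/r}` fails by a power of `N` off every set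
of at most `N / 4` integers (5).  For `r = 2` and without weights and exceptional integers the failure is due to Bourgain.

The proof of (1)-(3) uses Pisier's factorization theorem for `(q, 1)`-summing operators and the little Grothendieck
theorem, which are proved here in the finite case.
-/

set_option autoImplicit false

open Finset

namespace Pool.Agent.Results.MP_2a1f0e_nt.ExceptionalIntegers

/-- `∑_{t ≤ T} |D(t)|^q`, `D(t) = ∑_{N ≤ n ≤ 2N} b_n n^{it}` -/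
noncomputable def moment (q : ℝ) (N T : ℕ) (b : ℕ → ℂ) : ℝ :=
  ∑ t ∈ Icc 1 T, ‖∑ n ∈ Icc N (2 * N), b n * Complex.exp (Complex.I * (t : ℂ) * ((Real.log (n : ℝ) : ℝ) : ℂ))‖ ^ q

/-- the same for coefficients in `ℂ^k` with the Euclidean norm -/
noncomputable def vectorMoment (q : ℝ) (N T : ℕ) {k : ℕ} (b : ℕ → EuclideanSpace ℂ (Fin k)) : ℝ :=
  ∑ t ∈ Icc 1 T, ‖∑ n ∈ Icc N (2 * N), Complex.exp (Complex.I * (t : ℂ) * ((Real.log (n : ℝ) : ℝ) : ℂ)) • b n‖ ^ q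

/-- `X(ε) = N^ε (N^q + N^{q/2} T)` -/
noncomputable def X (q : ℝ) (N T : ℕ) (ε : ℝ) : ℝ := (N : ℝ) ^ ε * ((N : ℝ) ^ q + (N : ℝ) ^ (q / 2) * (T : ℝ))

/-- the inequality of Q1 for one exponent `q` and one exponent `A` -/
def MeanBound (q A : ℝ) : Prop := ∀ ε : ℝ, 0 < ε → ∃ K : ℝ,
  ∀ N T : ℕ, 1 ≤ N → N ≤ T → (T : ℝ) ≤ (N : ℝ) ^ A → ∀ b : ℕ → ℂ, (∀ n, ‖b n‖ ≤ 1) → moment q N T b ≤ K * X q N T ε

/-- the inequality with probability weights depending on `N` and `T`, for all complex coefficients -/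
def WeightedBound (q A : ℝ) : Prop := ∀ ε : ℝ, 0 < ε → ∃ K : ℝ,
  ∀ N T : ℕ, 1 ≤ N → N ≤ T → (T : ℝ) ≤ (N : ℝ) ^ A →
    ∃ p : ℕ → ℝ, (∀ n, 0 ≤ p n) ∧ ∑ n ∈ Icc N (2 * N), p n = 1 ∧
      ∀ b : ℕ → ℂ, moment q N T b ≤ K * X q N T ε * ∑ n ∈ Icc N (2 * N), p n * ‖b n‖ ^ q

/-- the inequality with the `ℓ^q` norm, for all complex coefficients which vanish on a set `B` of at most `N / R`
integers depending on `N`, `T` and `R`, with the loss of a factor `R` -/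
def ExceptionalBound (q A : ℝ) : Prop := ∀ ε : ℝ, 0 < ε → ∃ K : ℝ,
  ∀ N T : ℕ, 1 ≤ N → N ≤ T → (T : ℝ) ≤ (N : ℝ) ^ A → ∀ R : ℝ, 1 ≤ R →
    ∃ B : Finset ℕ, B ⊆ Icc N (2 * N) ∧ R * B.card ≤ N ∧ ∀ b : ℕ → ℂ, (∀ n ∈ B, b n = 0) →
      moment q N T b ≤ K * R * X q N T ε * (1 / (N : ℝ) * ∑ n ∈ Icc N (2 * N), ‖b n‖ ^ q)

/-- the inequality of Q1 for coefficients in finite dimensional Hilbert spaces, uniformly in the dimension -/
def VectorBound (q A : ℝ) : Prop := ∀ ε : ℝ, 0 < ε → ∃ K : ℝ,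
  ∀ N T : ℕ, 1 ≤ N → N ≤ T → (T : ℝ) ≤ (N : ℝ) ^ A → ∀ (k : ℕ) (b : ℕ → EuclideanSpace ℂ (Fin k)),
    (∀ n, ‖b n‖ ≤ 1) → vectorMoment q N T b ≤ K * X q N T ε

open Pool.Agent.TH804.GY in
theorem result :
    -- (1), (2), (3)
    (∀ q A : ℝ, 2 ≤ q →
      (MeanBound q A ↔ WeightedBound q A) ∧ (MeanBound q A ↔ ExceptionalBound q A) ∧ (MeanBound q A ↔ VectorBound q A)) ∧
    (∀ q r : ℝ, 2 < q → q < 4 → 2 ≤ r → ∃ c : ℝ, 0 < c ∧ ∃ N₀ : ℕ, 1 ≤ N₀ ∧ ∀ N : ℕ, N₀ ≤ N →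
      N ≤ ⌊(N : ℝ) ^ (q / 2)⌋₊ ∧
      -- (4)
      (∀ p : ℕ → ℝ, (∀ n, 0 ≤ p n) → ∑ n ∈ Icc N (2 * N), p n ≤ 1 →
        ∃ b : ℕ → ℂ, (∀ n, ‖b n‖ ≤ 1) ∧ 0 < moment q N ⌊(N : ℝ) ^ (q / 2)⌋₊ b ∧
          c * X q N ⌊(N : ℝ) ^ (q / 2)⌋₊ ((q ^ 2 / r - (q ^ 2 - 3 * q + 4)) / 4) *
            (∑ n ∈ Icc N (2 * N), p n * ‖b n‖ ^ r) ^ (q / r) ≤ moment q N ⌊(N : ℝ) ^ (q / 2)⌋₊ b) ∧
      -- (5)
      (∀ B : Finset ℕ, 4 * B.card ≤ N →
        ∃ b : ℕ → ℂ, (∀ n, ‖b n‖ ≤ 1) ∧ (∀ n ∈ B, b n = 0) ∧ 0 < moment q N ⌊(N : ℝ) ^ (q / 2)⌋₊ b ∧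
          c * X q N ⌊(N : ℝ) ^ (q / 2)⌋₊ ((q ^ 2 / r - (q ^ 2 - 3 * q + 4)) / 4) *
            (1 / (N : ℝ) * ∑ n ∈ Icc N (2 * N), ‖b n‖ ^ r) ^ (q / r) ≤ moment q N ⌊(N : ℝ) ^ (q / 2)⌋₊ b)) := by
  refine ⟨fun q A hq => ?_, fun q r hq2 hq4 hr => ?_⟩
  · have e1 : MeanBound q A ↔ MB q A := by
      constructor
      · intro h ε hε
        obtain ⟨K, hK⟩ := h ε hε
        exact ⟨K, fun N T hN hNT hTA b hb => (hK N T hN hNT hTA b hb).trans (le_of_eq (by unfold X; ring))⟩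
      · intro h ε hε
        obtain ⟨K, hK⟩ := h ε hε
        exact ⟨K, fun N T hN hNT hTA b hb => (hK N T hN hNT hTA b hb).trans (le_of_eq (by unfold X; ring))⟩
    have e2 : WeightedBound q A ↔ WB q A := by
      constructor
      · intro h ε hε
        obtain ⟨K, hK⟩ := h ε hε
        refine ⟨K, fun N T hN hNT hTA => ?_⟩
        obtain ⟨p, hp0, hp1, hp⟩ := hK N T hN hNT hTA
        exact ⟨p, hp0, hp1, fun b => (hp b).trans (le_of_eq (by unfold X; ring))⟩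
      · intro h ε hε
        obtain ⟨K, hK⟩ := h ε hε
        refine ⟨K, fun N T hN hNT hTA => ?_⟩
        obtain ⟨p, hp0, hp1, hp⟩ := hK N T hN hNT hTA
        exact ⟨p, hp0, hp1, fun b => (hp b).trans (le_of_eq (by unfold X; ring))⟩
    have e3 : ExceptionalBound q A ↔ EB q A := by
      constructor
      · intro h ε hε
        obtain ⟨K, hK⟩ := h ε hε
        refine ⟨K, fun N T hN hNT hTA R hR => ?_⟩
        obtain ⟨B, hB1, hB2, hB⟩ := hK N T hN hNT hTA R hR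
        exact ⟨B, hB1, hB2, fun b hb => (hB b hb).trans (le_of_eq (by unfold X; ring))⟩
      · intro h ε hε
        obtain ⟨K, hK⟩ := h ε hε
        refine ⟨K, fun N T hN hNT hTA R hR => ?_⟩
        obtain ⟨B, hB1, hB2, hB⟩ := hK N T hN hNT hTA R hR
        exact ⟨B, hB1, hB2, fun b hb => (hB b hb).trans (le_of_eq (by unfold X; ring))⟩
    have e4 : VectorBound q A ↔ VB q A := by
      constructor
      · intro h ε hε
        obtain ⟨K, hK⟩ := h ε hε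
        exact ⟨K, fun N T hN hNT hTA k b hb => (hK N T hN hNT hTA k b hb).trans (le_of_eq (by unfold X; ring))⟩
      · intro h ε hε
        obtain ⟨K, hK⟩ := h ε hε
        exact ⟨K, fun N T hN hNT hTA k b hb => (hK N T hN hNT hTA k b hb).trans (le_of_eq (by unfold X; ring))⟩
    rw [e1, e2, e3, e4]
    exact ⟨⟨WB_of_MB hq, fun h => MB_of_EB hq (EB_of_WB hq h)⟩, ⟨fun h => EB_of_WB hq (WB_of_MB hq h), MB_of_EB hq⟩,
      ⟨VB_of_MB hq, MB_of_VB⟩⟩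
  · obtain ⟨c, hc, N₀, hN₀, h⟩ := no_weights hq2 hq4 hr
    refine ⟨c, hc, N₀, hN₀, fun N hN => ?_⟩
    obtain ⟨h1, h2, h3⟩ := h N hN
    have e : (q ^ 2 / r - q ^ 2 + 3 * q - 4) / 4 = (q ^ 2 / r - (q ^ 2 - 3 * q + 4)) / 4 := by ring
    rw [e] at h2 h3
    refine ⟨h1, fun p hp hp1 => ?_, fun B hB => ?_⟩
    · obtain ⟨b, hb1, hb2, hb3⟩ := h2 p hp hp1
      exact ⟨b, hb1, hb2, le_trans (le_of_eq (by unfold X; ring)) hb3⟩
    · obtain ⟨b, hb1, hb2, hb3, hb4⟩ := h3 B hB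
      exact ⟨b, hb1, hb2, hb3, le_trans (le_of_eq (by unfold X; ring)) hb4⟩

end Pool.Agent.Results.MP_2a1f0e_nt.ExceptionalIntegers
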