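import Pool.Agent.TH961.AP.Lq

set_option autoImplicit false

/-!
The `l^q` bound for generic dilates of sets of small doubling.
-/

namespace Pool.Agent.Results.MP_2a1f0e_nt.SmallDoublingDilates

open Finset MeasureTheory
open scoped Pointwise

theorem pull (I : Set ℝ) (P : ℝ → Prop) (c : ENNReal) (h : volume {x | x ∈ I ∧ ¬ P x} ≤ c) :
    ∃ E : Set ℝ, MeasurableSet E ∧ volume E ≤ c ∧ ∀ x ∈ I, x ∉ E → P x := by
  refine ⟨toMeasurable volume {x | x ∈ I ∧ ¬ P x}, measurableSet_toMeasurable _ _, ?_, ?_⟩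
  · rw [measure_toMeasurable]
    exact h
  · intro x hx hxE
    by_contra hP
    exact hxE (subset_toMeasurable volume _ ⟨hx, hP⟩)

theorem conj_DP (N : ℕ) (hN : 1 ≤ N) (b : ℕ → ℂ) (τ : ℝ) :
    ‖∑ n ∈ Icc N (2 * N), b n * (n : ℂ) ^ ((τ : ℂ) * Complex.I)‖ =
      ‖Pool.Agent.TH961.AP.DP (2 * N) (fun n => if N ≤ n then (starRingEnd ℂ) (b n) else 0) τ‖ := by
  have h : Icc N (2 * N) = (Icc 1 (2 * N)).filter (fun n => N ≤ n) := by
    ext n
    simp only [mem_Icc, mem_filter]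
    omega
  rw [← RCLike.norm_conj, map_sum, h, sum_filter]
  unfold Pool.Agent.TH961.AP.DP
  congr 1
  apply sum_congr rfl
  intro n hn
  have hn1 := (mem_Icc.1 hn).1
  have h2 : (n : ℂ) ^ ((τ : ℂ) * Complex.I) = Complex.exp ((τ * Real.log n : ℝ) * Complex.I) := by
    have := Pool.Agent.TH961.AP.cpow_eq n hn1 (-τ)
    rw [show -(((-τ : ℝ) : ℂ) * Complex.I) = (τ : ℂ) * Complex.I by push_cast; ring] at this
    rw [this]
    congr 2
    push_cast; ring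
  rw [h2, Pool.Agent.TH961.AP.cpow_eq n hn1]
  by_cases hNn : N ≤ n
  · simp only [if_pos hNn]
    rw [map_mul, ← Complex.exp_conj, map_mul, Complex.conj_ofReal, Complex.conj_I]
    congr 2
    push_cast; ring
  · simp only [if_neg hNn]
    rw [zero_mul]

theorem result (k : ℕ) (hk : 1 ≤ k) (ε : ℝ) (hε : 0 < ε) : ∃ C : ℝ, 0 < C ∧
    ∀ N : ℕ, 1 ≤ N → ∀ A : Finset ℤ, A.Nonempty → ∀ K Λ η : ℝ, 1 ≤ Λ → 0 < η → η ≤ 1 →
      ((A - A).card : ℝ) ≤ K * A.card →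
    ∃ E : Set ℝ, MeasurableSet E ∧ volume E ≤ ENNReal.ofReal (η * Λ) ∧
      ∀ x ∈ Set.Icc Λ (2 * Λ), x ∉ E → ∀ (b : ℕ → ℂ) (v : ℝ), (∀ n, ‖b n‖ ≤ 1) →
        (∑ t ∈ A, ‖∑ n ∈ Icc N (2 * N), b n *
            (n : ℂ) ^ (((v + x * t : ℝ) : ℂ) * Complex.I)‖ ^ (2 * k) ≤
          C * (N : ℝ) ^ ε * (K ^ 2 / η) * (1 + Real.log (K * A.card)) *
            ((N : ℝ) ^ (2 * k) + A.card * (N : ℝ) ^ k)) ∧
        ∀ q : ℝ, 0 < q → ∑ t ∈ A, ‖∑ n ∈ Icc N (2 * N), b n *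
            (n : ℂ) ^ (((v + x * t : ℝ) : ℂ) * Complex.I)‖ ^ q ≤
          C * 2 ^ q * (N : ℝ) ^ ε * (K ^ 2 / η) * (1 + Real.log (K * A.card)) *
            max (A.card / (N : ℝ) ^ k) ((N : ℝ) ^ k / A.card) *
              ((N : ℝ) ^ q + A.card * (N : ℝ) ^ (q / 2)) := by
  obtain ⟨C, hC1, hC⟩ := Pool.Agent.TH961.AP.lq k hk ε hε
  refine ⟨2 * C * 2 ^ ε * 4 ^ k, by positivity, ?_⟩
  intro N hN A hA K Λ η hΛ hη hη1 hK
  have hM : 1 ≤ 2 * N := by omega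
  obtain ⟨E, hE1, hE2, hE3⟩ := pull _ _ _ (hC (2 * N) hM A hA K Λ η hΛ hη hη1 hK)
  refine ⟨E, hE1, hE2, ?_⟩
  intro x hx hxE b v hb
  obtain ⟨h1, h2⟩ := hE3 x hx hxE (fun n => if N ≤ n then (starRingEnd ℂ) (b n) else 0) v
    (fun n => by
      by_cases hn : N ≤ n
      · simp only [hn, if_true, RCLike.norm_conj]; exact hb n
      · simp only [hn, if_false, norm_zero]; norm_num)
  have hNr : (1:ℝ) ≤ N := by exact_mod_cast hN
  have hN0 : (0:ℝ) < N := by linarith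
  have hn0 : (0:ℝ) < A.card := by exact_mod_cast hA.card_pos
  have hA1 : (1:ℝ) ≤ A.card := by exact_mod_cast hA.card_pos
  have hKA : 0 ≤ Real.log (K * A.card) := by
    apply Real.log_nonneg
    have hAA : A.card ≤ (A - A).card := by
      obtain ⟨u, hu⟩ := hA
      calc A.card = (A - {u}).card := by
            rw [sub_singleton]
            exact (card_image_of_injective _ (sub_left_injective)).symm
        _ ≤ _ := card_le_card (sub_subset_sub_left (singleton_subset_iff.2 hu))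
    have hAA' : (A.card:ℝ) ≤ (A - A).card := by exact_mod_cast hAA
    linarith
  have hcast : ((2 * N : ℕ) : ℝ) = 2 * N := by push_cast; rfl
  have hpow : ∀ r : ℝ, ((2 * N : ℕ) : ℝ) ^ r = 2 ^ r * (N:ℝ) ^ r := by
    intro r
    rw [hcast, Real.mul_rpow (by norm_num) hN0.le]
  have h2k : (2:ℝ) ^ k ≤ 4 ^ k := pow_le_pow_left₀ (by norm_num) (by norm_num) k
  have h2k1 : (1:ℝ) ≤ 2 ^ k := one_le_pow₀ (by norm_num)
  set G : ℝ := K ^ 2 / η with hG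
  have hG0 : 0 ≤ G := by positivity
  set L : ℝ := 1 + Real.log (K * A.card) with hL
  have hL0 : 0 ≤ L := by linarith
  refine ⟨?_, ?_⟩
  · simp only [conj_DP N hN b]
    refine h1.trans ?_
    rw [hpow]
    have e1 : ((2 * N : ℕ) : ℝ) ^ (2 * k) + A.card * ((2 * N : ℕ) : ℝ) ^ k ≤
        4 ^ k * ((N:ℝ) ^ (2 * k) + A.card * (N:ℝ) ^ k) := by
      rw [hcast, mul_pow, mul_pow, pow_mul (2:ℝ) 2 k]
      have : A.card * (2 ^ k * (N:ℝ) ^ k) ≤ A.card * (4 ^ k * (N:ℝ) ^ k) := by gcongr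
      norm_num
      nlinarith
    calc C * (2 ^ ε * (N:ℝ) ^ ε) * G * L *
          (((2 * N : ℕ) : ℝ) ^ (2 * k) + A.card * ((2 * N : ℕ) : ℝ) ^ k)
        ≤ C * (2 ^ ε * (N:ℝ) ^ ε) * G * L *
          (4 ^ k * ((N:ℝ) ^ (2 * k) + A.card * (N:ℝ) ^ k)) := by gcongr
      _ = (C * 2 ^ ε * 4 ^ k) * (N:ℝ) ^ ε * G * L *
          ((N:ℝ) ^ (2 * k) + A.card * (N:ℝ) ^ k) := by ring
      _ ≤ (2 * C * 2 ^ ε * 4 ^ k) * (N:ℝ) ^ ε * G * L *
          ((N:ℝ) ^ (2 * k) + A.card * (N:ℝ) ^ k) := by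
          gcongr
          have : 0 < C * 2 ^ ε * 4 ^ k := by positivity
          linarith
  · intro q hq
    simp only [conj_DP N hN b]
    refine (h2 q hq).trans ?_
    rw [hpow, hpow, hpow]
    have e1 : max (A.card / ((2 * N : ℕ) : ℝ) ^ k) (((2 * N : ℕ) : ℝ) ^ k / A.card) ≤
        4 ^ k * max (A.card / (N:ℝ) ^ k) ((N:ℝ) ^ k / A.card) := by
      rw [hcast, mul_pow]
      apply max_le
      · have : (A.card:ℝ) / (2 ^ k * (N:ℝ) ^ k) ≤ A.card / (N:ℝ) ^ k := by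
          apply div_le_div_of_nonneg_left hn0.le (by positivity)
          nlinarith [pow_pos hN0 k]
        have h4 : (1:ℝ) ≤ 4 ^ k := one_le_pow₀ (by norm_num)
        have h5 : 0 ≤ max (A.card / (N:ℝ) ^ k) ((N:ℝ) ^ k / A.card) :=
          le_trans (by positivity) (le_max_left _ _)
        have h6 := le_max_left (A.card / (N:ℝ) ^ k) ((N:ℝ) ^ k / A.card)
        nlinarith
      · have h6 := le_max_right (A.card / (N:ℝ) ^ k) ((N:ℝ) ^ k / A.card)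
        calc 2 ^ k * (N:ℝ) ^ k / A.card = 2 ^ k * ((N:ℝ) ^ k / A.card) := by ring
          _ ≤ 4 ^ k * max (A.card / (N:ℝ) ^ k) ((N:ℝ) ^ k / A.card) := by gcongr
    have e2 : 2 ^ q * (N:ℝ) ^ q + A.card * (2 ^ (q / 2) * (N:ℝ) ^ (q / 2)) ≤
        2 ^ q * ((N:ℝ) ^ q + A.card * (N:ℝ) ^ (q / 2)) := by
      have : (2:ℝ) ^ (q / 2) ≤ 2 ^ q :=
        Real.rpow_le_rpow_of_exponent_le (by norm_num) (by linarith)
      have h7 : A.card * (2 ^ (q / 2) * (N:ℝ) ^ (q / 2)) ≤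
          A.card * (2 ^ q * (N:ℝ) ^ (q / 2)) := by gcongr
      linarith
    calc 2 * (C * (2 ^ ε * (N:ℝ) ^ ε) * G * L) *
          max (A.card / ((2 * N : ℕ) : ℝ) ^ k) (((2 * N : ℕ) : ℝ) ^ k / A.card) *
            (2 ^ q * (N:ℝ) ^ q + A.card * (2 ^ (q / 2) * (N:ℝ) ^ (q / 2)))
        ≤ 2 * (C * (2 ^ ε * (N:ℝ) ^ ε) * G * L) *
          (4 ^ k * max (A.card / (N:ℝ) ^ k) ((N:ℝ) ^ k / A.card)) *
            (2 ^ q * ((N:ℝ) ^ q + A.card * (N:ℝ) ^ (q / 2))) := by gcongr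
      _ = _ := by ring

end Pool.Agent.Results.MP_2a1f0e_nt.SmallDoublingDilates
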