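import Pool.Agent.TH445.MQ.Fin

set_option autoImplicit false

/-!
# Montgomery's `ℓ^q` conjecture for coefficients which are multiplicative on the smooth part

Write `n = r s`, where `r = roughPart y n` is composed of the primes `> y` and `s = smoothPart y n`
of the primes `≤ y`. For `q ≥ 2`, `A ≥ 1` and `0 < ε ≤ 1` the inequality of Q1 holds, with the loss
`N^ε`, for every `y ≤ N^δ`, `δ = ε² / (160 q²)`, and for all coefficients `b_n = g(r) f(s)`, where `g`
is arbitrary and `f` is multiplicative, both bounded by `1`, restricted to the `n` for which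
`r^(k+1) ≤ T`, `k = ⌊log T / log N⌋` (it is enough that `r ≤ √N`), and, at each prime `p ≤ y` dividing
`n`, either `f` is completely multiplicative at `p` or the power of `p` in `n` is at most `y`.
-/

namespace Pool.Agent.Results.MP_2a1f0e_nt.SmoothMultiplicative

open Finset Pool.Agent.TH445.MQ
open Pool.Agent.W200.MR (pw)

open Classical in
theorem result (q A ε : ℝ) (hq : 2 ≤ q) (hA : 1 ≤ A) (hε : 0 < ε) (hε1 : ε ≤ 1) :
    ∃ K : ℝ, ∀ N T y : ℕ, 1 ≤ N → N ≤ T → (T : ℝ) ≤ (N : ℝ) ^ A →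
      1 ≤ y → (y : ℝ) ≤ (N : ℝ) ^ (ε ^ 2 / (160 * q ^ 2)) →
      ∀ f g b : ℕ → ℂ, (∀ n, ‖f n‖ ≤ 1) → (∀ n, ‖g n‖ ≤ 1) → f 1 = 1 →
        (∀ m n, Nat.Coprime m n → f (m * n) = f m * f n) →
        (∀ n ∈ Finset.Icc N (2 * N), b n =
          if roughPart y n ^ (Nat.log N T + 1) ≤ T ∧
            (∀ p : ℕ, p.Prime → p ∣ n → p ≤ y →
              p ^ n.factorization p ≤ y ∨ ∀ m, f (p * m) = f p * f m) then
            g (roughPart y n) * f (smoothPart y n) else 0) →
        ∑ t ∈ Finset.Icc 1 T,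
            ‖∑ n ∈ Finset.Icc N (2 * N),
                b n * Complex.exp (Complex.I * (t : ℂ) * ((Real.log (n : ℝ) : ℝ) : ℂ))‖ ^ q
          ≤ K * (N : ℝ) ^ ε * ((N : ℝ) ^ q + (N : ℝ) ^ (q / 2) * (T : ℝ)) := by
  have hq0 : 0 < q := by linarith
  have hq1 : 1 ≤ q := by linarith
  obtain ⟨s, hs1, hs2, hs4⟩ : ∃ s : ℕ, 1 ≤ s ∧ 4 * (2 + q) / ε ≤ s ∧
      (s : ℝ) ≤ 4 * (2 + q) / ε + 2 := by
    refine ⟨⌈4 * (2 + q) / ε⌉₊ + 1, by omega, ?_, ?_⟩
    · push_cast
      linarith [Nat.le_ceil (4 * (2 + q) / ε)]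
    · push_cast
      have := Nat.ceil_lt_add_one (a := 4 * (2 + q) / ε) (by positivity)
      linarith
  have hs0 : (0 : ℝ) < s := by exact_mod_cast hs1
  have hs3 : (2 + q) / s ≤ ε / 4 := by
    rw [div_le_iff₀ hε] at hs2
    rw [div_le_div_iff₀ hs0 (by norm_num)]
    linarith
  obtain ⟨J, hJ⟩ : ∃ J : ℕ, J = 2 * s := ⟨_, rfl⟩
  have hJr : (J : ℝ) = 2 * s := by rw [hJ]; push_cast; ring
  set E0 : ℝ := 2 * q * (2 * s + 1) + 2 with hE0
  have hE0p : 0 < E0 := by positivity
  have hE1 : E0 * ε ≤ 38 * q ^ 2 := by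
    have h1 : (s : ℝ) * ε ≤ 9 * q := by
      have h2 : (s : ℝ) * ε ≤ (4 * (2 + q) / ε + 2) * ε := mul_le_mul_of_nonneg_right hs4 hε.le
      have h3 : (4 * (2 + q) / ε + 2) * ε = 4 * (2 + q) + 2 * ε := by field_simp
      rw [h3] at h2
      linarith
    rw [hE0]
    nlinarith
  set δ : ℝ := ε ^ 2 / (160 * q ^ 2) with hδ
  have hδ0 : 0 < δ := by positivity
  have hδE : δ * E0 ≤ ε / 4 := by
    rw [hδ, div_mul_eq_mul_div, div_le_div_iff₀ (by positivity) (by norm_num)]
    nlinarith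
  set η : ℝ := min 1 (ε / (4 * (q + 3))) with hη
  have hη0 : 0 < η := lt_min one_pos (by positivity)
  have hη1 : η ≤ 1 := min_le_left _ _
  have hηq : η * (q + 3) ≤ ε / 4 := by
    calc η * (q + 3) ≤ ε / (4 * (q + 3)) * (q + 3) :=
          mul_le_mul_of_nonneg_right (min_le_right _ _) (by positivity)
      _ = ε / 4 := by field_simp
  obtain ⟨K, hK1, hK2⟩ : ∃ K : ℕ, 1 ≤ K ∧ A * s + A + 1 ≤ K :=
    ⟨⌈A * s + A + 1⌉₊ + 1, by omega, by push_cast; linarith [Nat.le_ceil (A * s + A + 1)]⟩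
  have hK0 : (0 : ℝ) < K := by exact_mod_cast hK1
  set η' : ℝ := ε / (8 * A * K) with hη'
  have hη'0 : 0 < η' := by positivity
  have hη'K : A * η' * (2 * K) = ε / 4 := by rw [hη']; field_simp; norm_num
  obtain ⟨C, hC1, hC⟩ := cut_moment η hη0 hη1
  obtain ⟨Cd, hCd0, hCd⟩ := Pool.Agent.H510R2.divisor_bound η' hη'0
  set Cd' : ℝ := max Cd 1 with hCd'
  have hCd'1 : 1 ≤ Cd' := le_max_right _ _
  set c0 : ℝ := 2 ^ (q * (J + 1)) * (C ^ q * (30 * (1 + A / η) ^ 3 * Cd' ^ (2 * K) * 2 ^ q)) with hc0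
  have hc00 : 0 ≤ c0 := by positivity
  refine ⟨c0 + 2 ^ q, ?_⟩
  intro N T y hN hNT hTA hy hyδ f g b hf hg hf1 hfm hb
  have hbn : ∀ n ∈ Icc N (2 * N), ‖b n‖ ≤ 1 := by
    intro n hn
    rw [hb n hn]
    split_ifs
    · rw [norm_mul]
      exact mul_le_one₀ (hg _) (norm_nonneg _) (hf _)
    · simp
  rcases Nat.lt_or_ge N 2 with hN2 | hN2
  · -- `N = 1`
    have hN1 : N = 1 := by omega
    subst hN1
    have hT1 : T = 1 := by
      rw [Nat.cast_one, Real.one_rpow] at hTA
      have : T ≤ 1 := by exact_mod_cast hTA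
      omega
    subst hT1
    rw [Icc_self, sum_singleton]
    simp only [Nat.cast_one, Real.one_rpow, mul_one]
    have h1 : ‖∑ n ∈ Icc 1 2, b n * Complex.exp (Complex.I * ((Real.log (n : ℝ) : ℝ) : ℂ))‖ ≤ 2 := by
      calc _ ≤ ∑ n ∈ Icc 1 2, ‖b n * Complex.exp (Complex.I * ((Real.log (n : ℝ) : ℝ) : ℂ))‖ :=
            norm_sum_le _ _
        _ ≤ ∑ n ∈ Icc 1 2, (1 : ℝ) := by
            apply sum_le_sum
            intro n hn
            rw [norm_mul, mul_comm Complex.I, Complex.norm_exp_ofReal_mul_I, mul_one]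
            exact hbn n (by simpa using hn)
        _ = 2 := by simp
    have h2 : ‖∑ n ∈ Icc 1 2, b n * Complex.exp (Complex.I * ((Real.log (n : ℝ) : ℝ) : ℂ))‖ ^ q ≤
        2 ^ q := Real.rpow_le_rpow (norm_nonneg _) h1 hq0.le
    have h3 : (0 : ℝ) < 2 ^ q := by positivity
    linarith
  · have hN0 : (0 : ℝ) < N := by exact_mod_cast (by omega : 0 < N)
    have hNr : (2 : ℝ) ≤ N := by exact_mod_cast hN2
    have hNr1 : (1 : ℝ) ≤ N := by linarith
    have hT1 : 1 ≤ T := by omega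
    have hTr : (1 : ℝ) ≤ T := by exact_mod_cast hT1
    have hlN : 0 < Real.log N := Real.log_pos (by linarith)
    have hlT : 0 ≤ Real.log T := Real.log_nonneg hTr
    have hlTN : Real.log T ≤ A * Real.log N := by
      have := Real.log_le_log (by linarith) hTA
      rwa [Real.log_rpow hN0] at this
    set k := Nat.log N T with hk
    have hk1 : T < N ^ (k + 1) := Nat.lt_pow_succ_log_self hN2 T
    have hk2 : N ^ k ≤ T := Nat.pow_log_le_self N (by omega)
    have hkA : (k : ℝ) ≤ A := by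
      have h1 : ((N : ℝ)) ^ k ≤ T := by exact_mod_cast hk2
      have h2 := Real.log_le_log (by positivity) h1
      rw [Real.log_pow] at h2
      have h3 : (k : ℝ) * Real.log N ≤ A * Real.log N := h2.trans hlTN
      exact le_of_mul_le_mul_right h3 hlN
    set M : ℝ := (N : ℝ) ^ (1 / (s : ℝ)) with hM
    have hM1 : 1 < M := Real.one_lt_rpow (by linarith) (by positivity)
    have hlM : Real.log M = 1 / s * Real.log N := Real.log_rpow hN0 _
    have hKK : Real.log T / Real.log M + k + 1 ≤ K := by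
      have : Real.log T / Real.log M ≤ A * s := by
        rw [hlM, div_le_iff₀ (by positivity)]
        calc Real.log T ≤ A * Real.log N := hlTN
          _ = A * s * (1 / s * Real.log N) := by field_simp
      linarith
    set Δ : ℝ := Cd' * (N : ℝ) ^ (A * η') with hΔ
    have hΔ1 : 1 ≤ Δ := by
      have h1 : 1 ≤ (N : ℝ) ^ (A * η') := Real.one_le_rpow hNr1 (by positivity)
      rw [hΔ]
      nlinarith
    have hΔd : ∀ n : ℕ, 1 ≤ n → (n : ℝ) ≤ T → (n.divisors.card : ℝ) ≤ Δ := by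
      intro n hn hnT
      calc (n.divisors.card : ℝ) ≤ Cd * (n : ℝ) ^ η' := hCd n hn
        _ ≤ Cd' * ((N : ℝ) ^ A) ^ η' := by
            apply mul_le_mul (le_max_left _ _) _ (by positivity) (by positivity)
            exact Real.rpow_le_rpow (Nat.cast_nonneg _) (hnT.trans hTA) hη'0.le
        _ = Δ := by rw [hΔ, ← Real.rpow_mul hN0.le]
    have hMJ : 2 * (N : ℝ) < M ^ (J + 1) := by
      rw [hM, ← Real.rpow_natCast, ← Real.rpow_mul hN0.le]
      have h1 : 1 / (s : ℝ) * ((J + 1 : ℕ) : ℝ) = 2 + 1 / s := by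
        push_cast
        rw [hJr]
        field_simp
      rw [h1]
      calc 2 * (N : ℝ) ≤ (N : ℝ) ^ (2 : ℝ) := by
            rw [show (2 : ℝ) = ((2 : ℕ) : ℝ) by norm_num, Real.rpow_natCast]
            push_cast
            nlinarith
        _ < (N : ℝ) ^ (2 + 1 / (s : ℝ)) := by
            apply Real.rpow_lt_rpow_of_exponent_lt (by linarith)
            have : 0 < 1 / (s : ℝ) := by positivity
            linarith
    have hG : ∀ n, ‖GG g y k T n‖ ≤ 1 := by
      intro n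
      by_cases h : n ≠ 0 ∧ (∀ p : ℕ, p.Prime → p ∣ n → y < p) ∧ n ^ (k + 1) ≤ T
      · rw [GG_pos h]; exact hg n
      · rw [GG_neg h]; simp
    have hGs : ∀ n, GG g y k T n ≠ 0 → n ^ (k + 1) ≤ T := by
      intro n hn
      by_contra hc
      exact hn (GG_neg fun h => hc h.2.2)
    have hrec := recursion hN2 hNT hk1 hy hM1 hΔ1 hC1 hq1 hΔd hKK (hC N hN) hMJ (GG g y k T) hG hGs
      f hf1 hfm hf (J + 1) [] (by simp) (by simp) 0 (by omega)
    rw [List.prod_nil, mul_one] at hrec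
    have hLHS : ∑ t ∈ Finset.Icc 1 T, ‖∑ n ∈ Finset.Icc N (2 * N),
        b n * Complex.exp (Complex.I * (t : ℂ) * ((Real.log (n : ℝ) : ℝ) : ℂ))‖ ^ q =
        SS N T q (GG g y k T * co f y 0 y) := by
      unfold SS cut
      apply sum_congr rfl
      intro t _
      congr 2
      apply sum_congr rfl
      intro n hn
      have hn0 : n ≠ 0 := by have := (mem_Icc.1 hn).1; omega
      rw [coeff g k T n hn0, hb n hn, pw_exp]
    rw [hLHS]
    refine hrec.trans ?_
    -- the numerical estimate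
    set X : ℝ := (N : ℝ) with hX
    have hy1 : (1 : ℝ) ≤ y := by exact_mod_cast hy
    have hXδ : 1 ≤ X ^ δ := Real.one_le_rpow hNr1 hδ0.le
    have b1 : ((y : ℝ) + 1) ^ (q * ((J + 1 : ℕ) : ℝ)) ≤ 2 ^ (q * (J + 1)) * X ^ (δ * (q * (J + 1))) := by
      push_cast
      calc ((y : ℝ) + 1) ^ (q * ((J : ℝ) + 1)) ≤ (2 * X ^ δ) ^ (q * ((J : ℝ) + 1)) := by
            apply Real.rpow_le_rpow (by positivity) (by linarith) (by positivity)
        _ = _ := by
            rw [Real.mul_rpow (by norm_num) (by positivity), ← Real.rpow_mul hN0.le]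
    have b2 : (C * X ^ η) ^ q = C ^ q * X ^ (η * q) := by
      rw [Real.mul_rpow (by linarith) (by positivity), ← Real.rpow_mul hN0.le]
    have hMy : M * y ≤ X ^ (1 / (s : ℝ) + δ) := by
      rw [Real.rpow_add hN0]
      exact mul_le_mul_of_nonneg_left hyδ (by positivity)
    have hMy0 : 0 ≤ M * y := by positivity
    have b3 : (M * y) ^ 2 ≤ X ^ (2 * (1 / (s : ℝ) + δ)) := by
      calc (M * y) ^ 2 ≤ (X ^ (1 / (s : ℝ) + δ)) ^ 2 := pow_le_pow_left₀ hMy0 hMy 2
        _ = X ^ (2 * (1 / (s : ℝ) + δ)) := by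
            rw [← Real.rpow_natCast, ← Real.rpow_mul hN0.le]
            congr 1
            push_cast
            ring
    have b4 : (1 + Real.log T) ^ 3 ≤ (1 + A / η) ^ 3 * X ^ (3 * η) := by
      have h1 : Real.log X ≤ X ^ η / η := Real.log_le_rpow_div hN0.le hη0
      have h2 : 1 ≤ X ^ η := Real.one_le_rpow hNr1 hη0.le
      have h3 : 1 + Real.log T ≤ (1 + A / η) * X ^ η := by
        have h4 : A * Real.log X ≤ A * (X ^ η / η) := mul_le_mul_of_nonneg_left h1 (by linarith)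
        have h5 : (1 + A / η) * X ^ η = X ^ η + A * (X ^ η / η) := by ring
        linarith
      calc (1 + Real.log T) ^ 3 ≤ ((1 + A / η) * X ^ η) ^ 3 :=
            pow_le_pow_left₀ (by linarith) h3 3
        _ = (1 + A / η) ^ 3 * X ^ (3 * η) := by
            rw [mul_pow, ← Real.rpow_natCast (X ^ η), ← Real.rpow_mul hN0.le]
            congr 2
            push_cast
            ring
    have b5 : Δ ^ (2 * K) = Cd' ^ (2 * K) * X ^ (ε / 4) := by
      rw [hΔ, mul_pow, ← Real.rpow_natCast (X ^ (A * η')), ← Real.rpow_mul hN0.le]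
      congr 2
      push_cast
      exact hη'K
    have b6 : (2 * (y : ℝ) ^ J * (M * y)) ^ q ≤ 2 ^ q * X ^ (q * (δ * J + (1 / s + δ))) := by
      have h1 : (y : ℝ) ^ J ≤ X ^ (δ * J) := by
        calc (y : ℝ) ^ J ≤ (X ^ δ) ^ J := pow_le_pow_left₀ (by linarith) hyδ J
          _ = X ^ (δ * J) := by rw [← Real.rpow_natCast, ← Real.rpow_mul hN0.le]
      calc (2 * (y : ℝ) ^ J * (M * y)) ^ q ≤ (2 * X ^ (δ * J) * X ^ (1 / (s : ℝ) + δ)) ^ q := by
            apply Real.rpow_le_rpow (by positivity) _ hq0.le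
            apply mul_le_mul _ hMy hMy0 (by positivity)
            exact mul_le_mul_of_nonneg_left h1 (by norm_num)
        _ = 2 ^ q * X ^ (q * (δ * J + (1 / s + δ))) := by
            rw [mul_assoc, ← Real.rpow_add hN0, Real.mul_rpow (by norm_num) (by positivity),
              ← Real.rpow_mul hN0.le]
            congr 2
            ring
    set Z : ℝ := X ^ q + T * X ^ (q / 2) with hZ
    have hZ0 : 0 ≤ Z := by positivity
    have hWW : WW C η Δ M N T y J K q ≤ C ^ q * X ^ (η * q) *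
        (30 * X ^ (2 * (1 / (s : ℝ) + δ)) * ((1 + A / η) ^ 3 * X ^ (3 * η)) *
          (Cd' ^ (2 * K) * X ^ (ε / 4)) * (2 ^ q * X ^ (q * (δ * J + (1 / s + δ)))) * Z) := by
      unfold WW
      rw [b2, b5]
      gcongr
    have hfin : ((y : ℝ) + 1) ^ (q * ((J + 1 : ℕ) : ℝ)) * WW C η Δ M N T y J K q ≤ c0 * X ^ ε * Z := by
      calc ((y : ℝ) + 1) ^ (q * ((J + 1 : ℕ) : ℝ)) * WW C η Δ M N T y J K q
          ≤ (2 ^ (q * (J + 1)) * X ^ (δ * (q * (J + 1)))) * (C ^ q * X ^ (η * q) *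
            (30 * X ^ (2 * (1 / (s : ℝ) + δ)) * ((1 + A / η) ^ 3 * X ^ (3 * η)) *
            (Cd' ^ (2 * K) * X ^ (ε / 4)) * (2 ^ q * X ^ (q * (δ * J + (1 / s + δ)))) * Z)) := by
            apply mul_le_mul b1 hWW _ (by positivity)
            exact WW_nonneg (by linarith) (by linarith) (by linarith) hT1
        _ = c0 * X ^ (δ * (q * (J + 1)) + η * q + 2 * (1 / (s : ℝ) + δ) + 3 * η + ε / 4 +
            q * (δ * J + (1 / s + δ))) * Z := by
            rw [Real.rpow_add hN0, Real.rpow_add hN0, Real.rpow_add hN0, Real.rpow_add hN0,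
              Real.rpow_add hN0, hc0]
            ring
        _ ≤ c0 * X ^ ε * Z := by
            apply mul_le_mul_of_nonneg_right _ hZ0
            apply mul_le_mul_of_nonneg_left _ hc00
            apply Real.rpow_le_rpow_of_exponent_le hNr1
            rw [hJr]
            have e1 : δ * (q * (2 * s + 1)) + η * q + 2 * (1 / (s : ℝ) + δ) + 3 * η + ε / 4 +
                q * (δ * (2 * s) + (1 / s + δ)) = δ * E0 + η * (q + 3) + (2 + q) / s + ε / 4 := by
              rw [hE0]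
              ring
            rw [e1]
            linarith
    have hcomm : X ^ q + X ^ (q / 2) * (T : ℝ) = Z := by rw [hZ]; ring
    rw [hcomm]
    refine hfin.trans ?_
    have : 0 ≤ 2 ^ q * X ^ ε * Z := by positivity
    calc c0 * X ^ ε * Z ≤ c0 * X ^ ε * Z + 2 ^ q * X ^ ε * Z := le_add_of_nonneg_right this
      _ = (c0 + 2 ^ q) * X ^ ε * Z := by ring

end Pool.Agent.Results.MP_2a1f0e_nt.SmoothMultiplicative
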